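import Mathlib
import Pool.Agent.P.MP_3a943a_co.Main

set_option autoImplicit false

namespace Pool.Agent.Results.MP_3a943a_co.HalfPi

open Pool.Agent.P.MP_3a943a_co

theorem result (k n : ℕ) (_hn : 1 ≤ n) (hk : n < k) :
    (∀ r : ℝ, 0 < r → r < Real.pi → alphaStar k n r ≤ Real.pi / 2) ∧
    (k ≤ 2 * n → ∃ r₀ : ℝ, r₀ < Real.pi ∧
      ∀ r : ℝ, r₀ ≤ r → r < Real.pi → alphaStar k n r = Real.pi / 2) ∧
    (2 * n < k → ∀ r : ℝ, 0 < r → r < Real.pi → alphaStar k n r < Real.pi / 2) :=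
  half_pi hk

end Pool.Agent.Results.MP_3a943a_co.HalfPi
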