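import Mathlib
import Pool.Agent.P.MP_3a943a_co.Main

set_option autoImplicit false

namespace Pool.Agent.Results.MP_3a943a_co.Limit

open Pool.Agent.P.MP_3a943a_co

theorem result (k n : ℕ) (_hn : 1 ≤ n) (hk : n < k) :
    (2 * k ≤ n * (n + 5) →
      Filter.Tendsto (alphaStar k n) (nhdsWithin Real.pi (Set.Iio Real.pi)) (nhds (Real.pi / 2))) ∧
    (n * (n + 5) < 2 * k → ∀ r : ℝ, 0 < r → r < Real.pi →
      alphaStar k n r ≤ Real.arccos (1 / ((n : ℝ) + 1))) :=
  ⟨limit_half_pi hk, fun h _ _ hr => alphaStar_le_arccos h hr⟩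

end Pool.Agent.Results.MP_3a943a_co.Limit
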