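import Mathlib
import Pool.Agent.P.MP_3a943a_co.Pl.Plateau

set_option autoImplicit false

namespace Pool.Agent.Results.MP_3a943a_co.SecondPlateau

open Pool.Agent.P.MP_3a943a_co

theorem result (k n : ℕ) (hn : 1 ≤ n) (h1 : n * (n + 5) < 2 * k)
    (h2 : 2 * k ≤ n * (n + 5) + 4 * Nat.log 2 (n + 1)) :
    Filter.Tendsto (alphaStar k n) (nhdsWithin Real.pi (Set.Iio Real.pi))
      (nhds (Real.arccos (1 / ((n : ℝ) + 1)))) :=
  Pl.plateau hn h1 h2

end Pool.Agent.Results.MP_3a943a_co.SecondPlateau
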